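import Pool.Agent.N245.DS.St

/-! Project DS, CNT: numbers of sign changes on segments. -/

set_option autoImplicit false

namespace Pool.Agent.N756.DS

open MeasureTheory Set Pool.Agent.N245.DS

theorem bound (F lam : ℝ) (hF : 0 < F) (hlam : 0 < lam) (K : ℕ) (hK : (K : ℝ) ^ 2 ≤ lam * F)
    (a b : ℝ) (hab : a ≤ b) (n : ℕ)
    (h : (n : ℝ) ≤ 4 + (b - a) * Real.sqrt (lam * F) + 4 * (K + 1 : ℕ)) :
    (n : ℝ) ≤ (8 + 4 * Real.sqrt F) * (1 + (b - a)) * Real.sqrt (1 + lam) := by
  have h1 : (K : ℝ) ≤ Real.sqrt (lam * F) := Real.le_sqrt_of_sq_le hK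
  have h2 : Real.sqrt (lam * F) ≤ Real.sqrt F * Real.sqrt (1 + lam) := by
    rw [← Real.sqrt_mul hF.le]
    exact Real.sqrt_le_sqrt (by nlinarith)
  have h3 : 1 ≤ Real.sqrt (1 + lam) := by
    rw [Real.one_le_sqrt]
    linarith
  have h4 : 0 ≤ Real.sqrt F := Real.sqrt_nonneg _
  have h5 : 0 ≤ b - a := by linarith
  have h6 : (b - a) * Real.sqrt (lam * F) ≤ (b - a) * (Real.sqrt F * Real.sqrt (1 + lam)) :=
    mul_le_mul_of_nonneg_left h2 h5
  push_cast at h
  have h7 : 0 ≤ (b - a) * Real.sqrt F * Real.sqrt (1 + lam) := by positivity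
  have h8 : 0 ≤ (b - a) * Real.sqrt (1 + lam) := by positivity
  nlinarith

theorem cnt : S_STURM → S_MODES → S_CNT := by
  intro hS hM F hF
  refine ⟨8 + 4 * Real.sqrt F, by positivity, ?_⟩
  intro f L α lam φ hL hfc hfp hf0 hfF hE
  have hlam : 0 < lam := hE.pos
  obtain ⟨K, A, A', B, B', hK, hA, hA', hB, hB', hφ⟩ := hM f L α lam F φ hL hfc hfp hf0 hfF hE
  have hlF : 0 ≤ lam * F := by positivity
  have hi : ∀ i : Fin (K + 1), ((i : ℕ) : ℝ) ^ 2 ≤ lam * F := by
    intro i
    have h1 : ((i : ℕ) : ℝ) ≤ K := by exact_mod_cast Nat.lt_succ_iff.1 i.2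
    have h2 : (0 : ℝ) ≤ ((i : ℕ) : ℝ) := Nat.cast_nonneg _
    nlinarith
  have hinj : ∀ i j : Fin (K + 1), ((i : ℕ) : ℝ) ^ 2 = ((j : ℕ) : ℝ) ^ 2 → i = j := by
    intro i j h
    have h1 : ((i : ℕ) : ℝ) = ((j : ℕ) : ℝ) :=
      (pow_left_inj₀ (Nat.cast_nonneg _) (Nat.cast_nonneg _) two_ne_zero).1 h
    exact Fin.ext (by exact_mod_cast h1)
  constructor
  · intro x a b n hab hn
    refine bound F lam hF hlam K hK a b hab n ?_
    have hcos : ∀ (k y : ℝ), HasDerivAt (fun y => Real.cos (k * y)) (-Real.sin (k * y) * k) y := by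
      intro k y
      have h1 : HasDerivAt (fun y : ℝ => k * y) k y := by
        simpa using (hasDerivAt_id y).const_mul k
      exact h1.cos
    have hsin : ∀ (k y : ℝ), HasDerivAt (fun y => Real.sin (k * y)) (Real.cos (k * y) * k) y := by
      intro k y
      have h1 : HasDerivAt (fun y : ℝ => k * y) k y := by
        simpa using (hasDerivAt_id y).const_mul k
      exact h1.sin
    refine hS (K + 1) a b (lam * F) (fun _ => 0) (fun i => -((i : ℕ) : ℝ) ^ 2)
      (fun i y => A i x * Real.cos ((i : ℕ) * y) + B i x * Real.sin ((i : ℕ) * y))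
      (fun i y => A i x * (-Real.sin ((i : ℕ) * y) * (i : ℕ)) +
        B i x * (Real.cos ((i : ℕ) * y) * (i : ℕ))) hlF continuous_const ?_ ?_ ?_ ?_ n ?_
    · intro i j h
      exact hinj i j (neg_injective h)
    · intro i y
      simp only [sub_zero, abs_neg, abs_pow, Nat.abs_cast]
      exact hi i
    · intro i y
      exact ((hcos _ y).const_mul _).add ((hsin _ y).const_mul _)
    · intro i y
      refine (((((hsin _ y).neg).mul_const _).const_mul _).add
        (((hcos _ y).mul_const _).const_mul _)).congr_deriv ?_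
      ring
    · have e : (fun y => φ (x, y)) = fun y => ∑ i : Fin (K + 1),
          (A i x * Real.cos ((i : ℕ) * y) + B i x * Real.sin ((i : ℕ) * y)) := by
        funext y
        rw [hφ, Finset.sum_range]
      rw [← e]
      exact hn
  · intro y a b n hab hn
    refine bound F lam hF hlam K hK a b hab n ?_
    refine hS (K + 1) a b (lam * F) (fun x => lam * f x) (fun i => ((i : ℕ) : ℝ) ^ 2)
      (fun i x => A i x * Real.cos ((i : ℕ) * y) + B i x * Real.sin ((i : ℕ) * y))
      (fun i x => A' i x * Real.cos ((i : ℕ) * y) + B' i x * Real.sin ((i : ℕ) * y)) hlF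
      (continuous_const.mul hfc) ?_ ?_ ?_ ?_ n ?_
    · intro i j h
      exact hinj i j h
    · intro i x
      have h1 := hi i
      have h2 : 0 ≤ ((i : ℕ) : ℝ) ^ 2 := sq_nonneg _
      have h3 : 0 ≤ lam * f x := mul_nonneg hlam.le (hf0 x).le
      have h4 : lam * f x ≤ lam * F := mul_le_mul_of_nonneg_left (hfF x) hlam.le
      rw [abs_le]
      constructor <;> linarith
    · intro i x
      exact ((hA i x).mul_const _).add ((hB i x).mul_const _)
    · intro i x
      refine (((hA' i x).mul_const _).add ((hB' i x).mul_const _)).congr_deriv ?_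
      ring
    · have e : (fun x => φ (x, y)) = fun x => ∑ i : Fin (K + 1),
          (A i x * Real.cos ((i : ℕ) * y) + B i x * Real.sin ((i : ℕ) * y)) := by
        funext x
        rw [hφ, Finset.sum_range]
      rw [← e]
      exact hn

end Pool.Agent.N756.DS
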